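import Mathlib
import Pool.Agent.H36.ME.Main

/-!
# Asymptotic majority 3-colourings (list form)

`A v u` means that there is an arc from `v` to `u`.  For a finite digraph whose in-degrees are at
most `B` times the out-degree (or `B` times the threshold below, for the vertices of small
out-degree) and for every list of at least three colours at every vertex there is one colouring
from the lists in which every vertex `v` of out-degree at least `640 log (2 B / ε) / ε ^ 2` has at
most `(1 / 2 + ε) * outdeg v` out-neighbours of its own colour.  There is no bound on the maximum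
degree, none on the minimum degree, and none on the ratio of the degrees of different vertices.
For an Eulerian digraph one takes `B = 1`.
-/

set_option autoImplicit false

namespace Pool.Agent.Results.MP_7aec7e_co.AsymptoticMajority

open Pool.Agent.H36.ME

theorem result {V α : Type} [Fintype V] (A : V → V → Prop) (ε B : ℝ) (hε : 0 < ε) (hε1 : ε ≤ 1)
    (hB : 1 ≤ B)
    (hA : ∀ v, (indeg A v : ℝ) ≤ B * max (outdeg A v : ℝ) (640 * Real.log (2 * B / ε) / ε ^ 2))
    (L : V → Finset α) (hL : ∀ v, 3 ≤ (L v).card) :
    ∃ f : V → α, (∀ v, f v ∈ L v) ∧ ∀ v, 640 * Real.log (2 * B / ε) / ε ^ 2 ≤ outdeg A v →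
      (own A f v : ℝ) ≤ (1 / 2 + ε) * outdeg A v :=
  main A ε B hε hε1 hB hA L hL

end Pool.Agent.Results.MP_7aec7e_co.AsymptoticMajority
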