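import Pool.Agent.H7.ML.Num

/-!
# MP_7aec7e_co: majority 3-colourings of digraphs with locally comparable degrees

The definitions (`outdeg`, `indeg`, `own`, `majorityColourings`) are in `Pool/Agent/H7/ML/Defs.lean`.
-/

set_option autoImplicit false

namespace Pool.Agent.Results.MP_7aec7e_co.RegularMajority

open Pool.Agent.H7.ML

/-- Let `k = 118`, or `k = 110` and all out-degrees even. In a finite digraph without loops all of whose out-degrees
are at least `k` and in which the in-degree of `u` is at most `k * (21 / 20) ^ (outdeg w - k)` for every arc from `w` to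
`u`, there are, for all lists `L v` of at least three colours, at least `(3 - 3 / k) ^ |V|` majority colourings from the
lists. -/
theorem result : ∀ (V : Type) [Fintype V] (C : Type) (A : V → V → Prop), (∀ v, ¬ A v v) →
    ∀ L : V → Finset C, (∀ v, 3 ≤ (L v).card) → ∀ k : ℕ,
      (k = 118 ∨ (k = 110 ∧ ∀ v, Even (outdeg A v))) → (∀ v, k ≤ outdeg A v) →
        (∀ w u, A w u → (indeg A u : ℝ) ≤ k * (21 / 20) ^ (outdeg A w - k)) →
          (3 - 3 / (k : ℝ)) ^ Fintype.card V ≤ (majorityColourings A L : ℝ) := by
  intro V _ C A hA L hL k hk hout hin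
  exact main_list A L hL hA k hk hout hin

end Pool.Agent.Results.MP_7aec7e_co.RegularMajority
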